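import Mathlib
import Pool.Agent.H22.GMC.NotDominated

/-!
# Geometric Manin's Conjecture fails for the terminal Fano variety `P(1, ..., 1, 2)`

`X_n = P(1, ..., 1, 2)` (`n + 1` ones, `n ≥ 2`) is a `Q`-factorial terminal Fano variety of Picard
rank one, so its curve classes are indexed by the degree `e` with respect to `O(2)`.  The spaces of
rational curves of degree `e` on `X_n` have `⌊e/2⌋ + 1` irreducible components, and all of them
except possibly one are Manin components.
-/

namespace Pool.Agent.Results.MP_ea1590_ag.ManinComponentsUnbounded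

open Pool.Agent.H22.GMC

universe u

/-- **Main theorem.** Let `k` be an algebraically closed field of characteristic zero and `n ≥ 2`.
Let `Breaking` be any property of maps `f : Y ⇢ X_n`, `Y` a projective variety, which implies that
`f` is generically finite onto its image and not birational.

For every `e ≥ 1` the space of morphisms of degree `e` from the projective line to `X_n` has exactly
`⌊e/2⌋ + 1` irreducible components, and at least `⌊e/2⌋` of them are not dominated by curves on any
`Y` with a breaking map to `X_n`.  So no pair `(c, a)` has the property that for every `e ≥ a`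
there are exactly `c` Manin components in degree `e`; this holds for every family `Manin` of
sets of irreducible components which contains all the components not dominated by curves on any
such `Y`. -/
theorem result (k : Type u) [Field k] [IsAlgClosed k] [CharZero k] (n : ℕ) (hn : 2 ≤ n)
    (Breaking : Source k n → Prop)
    (hBreaking : ∀ Y, Breaking Y → Y.GenericallyFinite ∧ ¬ Y.Birational) :
    (∀ e : ℕ, 1 ≤ e →
      (irreducibleComponents (Maps k n e)).ncard = e / 2 + 1 ∧
      e / 2 ≤ (ManinComponents Breaking e).ncard) ∧
    ∀ Manin : (∀ e : ℕ, Set (Set (Maps k n e))),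
      (∀ e, ManinComponents Breaking e ⊆ Manin e) →
      (∀ e, Manin e ⊆ irreducibleComponents (Maps k n e)) →
      ¬ ∃ (c : ℕ) (a : ℝ), ∀ e : ℕ, a ≤ e → (Manin e).ncard = c := by
  have hfirst : ∀ e : ℕ, 1 ≤ e →
      (irreducibleComponents (Maps k n e)).ncard = e / 2 + 1 ∧
      e / 2 ≤ (ManinComponents Breaking e).ncard := by
    intro e he
    have hcard := ncard_irreducibleComponents_maps (k := k) (n := n) (by omega) he
    refine ⟨hcard, ?_⟩
    have hfin : (irreducibleComponents (Maps k n e)).Finite :=
      Set.finite_of_ncard_pos (by rw [hcard]; omega)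
    have hsub : (fun m => closure (stratum k n e m)) '' (Finset.Icc 1 (e / 2) : Set ℕ) ⊆
        ManinComponents Breaking e := by
      rintro _ ⟨m, hm, rfl⟩
      rw [Finset.coe_Icc, Set.mem_Icc] at hm
      have hm2 : 2 * m ≤ e := by omega
      refine ⟨?_, ?_⟩
      · rw [irreducibleComponents_maps (by omega) he]
        exact ⟨m, hm2, rfl⟩
      · intro Y hY
        exact not_dominates hm2 hm.1 Y (hBreaking Y hY).1 (hBreaking Y hY).2
    have hinj : Set.InjOn (fun m => closure (stratum k n e m))
        (Finset.Icc 1 (e / 2) : Set ℕ) := by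
      intro m hm m' hm' heq
      rw [Finset.coe_Icc, Set.mem_Icc] at hm hm'
      have hsub : stratum k n e m ⊆ closure (stratum k n e m') := by
        have h : closure (stratum k n e m) = closure (stratum k n e m') := heq
        rw [← h]
        exact subset_closure
      rcases lt_trichotomy m m' with h | h | h
      · exact absurd hsub (not_subset_of_lt (by omega) he h)
      · exact h
      · exact absurd hsub (not_subset_of_gt (by omega) (by omega) h)
    calc e / 2 = (Finset.Icc 1 (e / 2) : Set ℕ).ncard := by
          rw [Set.ncard_coe_finset, Nat.card_Icc]; omega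
      _ = ((fun m => closure (stratum k n e m)) '' (Finset.Icc 1 (e / 2) : Set ℕ)).ncard :=
          (Set.InjOn.ncard_image hinj).symm
      _ ≤ _ := Set.ncard_le_ncard hsub (hfin.subset (fun M hM => hM.1))
  refine ⟨hfirst, ?_⟩
  rintro Manin h1 h2 ⟨c, a, h⟩
  set e : ℕ := 2 * (c + 1) + 2 * ⌈|a|⌉₊ with he
  have hae : a ≤ e := by
    have h3 : a ≤ |a| := le_abs_self a
    have h4 : |a| ≤ ⌈|a|⌉₊ := Nat.le_ceil _
    have h5 : ((⌈|a|⌉₊ : ℕ) : ℝ) ≤ (e : ℝ) := by
      exact_mod_cast (by omega : ⌈|a|⌉₊ ≤ e)
    linarith
  have he1 : 1 ≤ e := by omega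
  obtain ⟨h3, h4⟩ := hfirst e he1
  have hfin : (irreducibleComponents (Maps k n e)).Finite :=
    Set.finite_of_ncard_pos (by rw [h3]; omega)
  have h5 := Set.ncard_le_ncard (h1 e) (hfin.subset (h2 e))
  rw [h e hae] at h5
  omega

end Pool.Agent.Results.MP_ea1590_ag.ManinComponentsUnbounded
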